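import Pool.Agent.H695R3.PP.Stmts

set_option autoImplicit false

/-!
# `TaskDich`: averaging loses a part of the norm unless the function is spread out
-/

open scoped BigOperators ENNReal
open MeasureTheory

namespace Pool.Agent.H191R3.PP

open Pool.Agent.H695R3.PP

/-- squared distance -/
noncomputable def dq (a b : ℝ≥0∞) : ℝ≥0∞ := ENNReal.ofReal ((a.toReal - b.toReal) ^ 2)

theorem dq_comm (a b : ℝ≥0∞) : dq a b = dq b a := by
  unfold dq; congr 1; ring

theorem dq_tri (a b c : ℝ≥0∞) : dq a b ≤ 2 * dq a c + 2 * dq c b := by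
  unfold dq
  have h2 : (2 : ℝ≥0∞) = ENNReal.ofReal 2 := by norm_num
  rw [h2, ← ENNReal.ofReal_mul (by norm_num), ← ENNReal.ofReal_mul (by norm_num),
    ← ENNReal.ofReal_add (by positivity) (by positivity)]
  apply ENNReal.ofReal_le_ofReal
  nlinarith [sq_nonneg ((a.toReal - c.toReal) - (c.toReal - b.toReal))]

theorem dq_add (a b : ℝ≥0∞) : dq a b + 2 * (a * b) ≤ a ^ 2 + b ^ 2 := by
  by_cases ha : a = ∞
  · simp [ha]
  by_cases hb : b = ∞
  · simp [hb]
  have h2 : (2 : ℝ≥0∞) = ENNReal.ofReal 2 := by norm_num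
  have h0 := ENNReal.toReal_nonneg (a := a)
  have h1 := ENNReal.toReal_nonneg (a := b)
  have e1 : a = ENNReal.ofReal a.toReal := (ENNReal.ofReal_toReal ha).symm
  have e2 : b = ENNReal.ofReal b.toReal := (ENNReal.ofReal_toReal hb).symm
  obtain ⟨x, hx⟩ : ∃ x, x = a.toReal := ⟨_, rfl⟩
  obtain ⟨y, hy⟩ : ∃ y, y = b.toReal := ⟨_, rfl⟩
  unfold dq
  rw [← hx, ← hy]
  rw [← hx] at e1 h0
  rw [← hy] at e2 h1
  rw [e1, e2, h2, ← ENNReal.ofReal_mul h0, ← ENNReal.ofReal_mul (by norm_num),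
    ← ENNReal.ofReal_pow h0, ← ENNReal.ofReal_pow h1,
    ← ENNReal.ofReal_add (by positivity) (by positivity),
    ← ENNReal.ofReal_add (by positivity) (by positivity)]
  apply ENNReal.ofReal_le_ofReal
  nlinarith

theorem sq_le_dq (a b : ℝ≥0∞) (ha : a ≠ ∞) : a ^ 2 ≤ 2 * b ^ 2 + 2 * dq a b := by
  by_cases hb : b = ∞
  · simp [hb]
  have h2 : (2 : ℝ≥0∞) = ENNReal.ofReal 2 := by norm_num
  have h0 := ENNReal.toReal_nonneg (a := a)
  have h1 := ENNReal.toReal_nonneg (a := b)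
  have e1 : a = ENNReal.ofReal a.toReal := (ENNReal.ofReal_toReal ha).symm
  have e2 : b = ENNReal.ofReal b.toReal := (ENNReal.ofReal_toReal hb).symm
  obtain ⟨x, hx⟩ : ∃ x, x = a.toReal := ⟨_, rfl⟩
  obtain ⟨y, hy⟩ : ∃ y, y = b.toReal := ⟨_, rfl⟩
  unfold dq
  rw [← hx, ← hy]
  rw [← hx] at e1 h0
  rw [← hy] at e2 h1
  rw [e1, e2, h2, ← ENNReal.ofReal_pow h0, ← ENNReal.ofReal_pow h1,
    ← ENNReal.ofReal_mul (by norm_num), ← ENNReal.ofReal_mul (by norm_num),
    ← ENNReal.ofReal_add (by positivity) (by positivity)]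
  apply ENNReal.ofReal_le_ofReal
  nlinarith [sq_nonneg (x - 2 * y)]

/-- the modulus of continuity -/
noncomputable def om (g : ℝ → ℝ≥0∞) (t : ℝ) : ℝ≥0∞ := ∫⁻ x, dq (g (x + t)) (g x)

theorem measurable_dq {α : Type*} [MeasurableSpace α] {f h : α → ℝ≥0∞} (hf : Measurable f)
    (hh : Measurable h) : Measurable fun x => dq (f x) (h x) := by
  unfold dq
  exact ENNReal.measurable_ofReal.comp ((hf.ennreal_toReal.sub hh.ennreal_toReal).pow_const 2)

theorem measurable_om {g : ℝ → ℝ≥0∞} (hg : Measurable g) : Measurable (om g) := by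
  unfold om
  exact Measurable.lintegral_prod_right' (f := fun p : ℝ × ℝ => dq (g (p.2 + p.1)) (g p.2))
    (measurable_dq (hg.comp (measurable_snd.add measurable_fst)) (hg.comp measurable_snd))

/-- translation form -/
theorem om_eq (g : ℝ → ℝ≥0∞) (a b : ℝ) : ∫⁻ x, dq (g (x + a)) (g (x + b)) = om g (a - b) := by
  unfold om
  rw [← lintegral_add_right_eq_self (μ := volume) (fun x => dq (g (x + (a - b))) (g x)) b]
  congr 1
  funext x
  congr 2
  ring_nf

theorem om_tri {g : ℝ → ℝ≥0∞} (hg : Measurable g) (h r : ℝ) :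
    om g h ≤ 2 * om g r + 2 * om g (r - h) := by
  have e1 : om g h = ∫⁻ x, dq (g (x + h)) (g x) := rfl
  have e2 : om g r = ∫⁻ x, dq (g (x + r)) (g x) := rfl
  have m2 : Measurable fun x => dq (g (x + r)) (g x) :=
    measurable_dq (hg.comp (measurable_id.add_const _)) hg
  have m3 : Measurable fun x => dq (g (x + r)) (g (x + h)) :=
    measurable_dq (hg.comp (measurable_id.add_const _)) (hg.comp (measurable_id.add_const _))
  rw [e1, e2, ← om_eq g r h, ← lintegral_const_mul _ m2, ← lintegral_const_mul _ m3,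
    ← lintegral_add_left (m2.const_mul _)]
  apply lintegral_mono
  intro x
  have := dq_tri (g (x + h)) (g x) (g (x + r))
  rw [dq_comm (g (x + h)) (g (x + r))] at this
  exact this.trans (le_of_eq (add_comm _ _))

theorem om_nsteps {g : ℝ → ℝ≥0∞} (hg : Measurable g) (h : ℝ) (n : ℕ) :
    om g (n * h) ≤ (n : ℝ≥0∞) ^ 2 * om g h := by
  have key : ∀ x, dq (g (x + n * h)) (g x) ≤
      (n : ℝ≥0∞) * ∑ i ∈ Finset.range n, dq (g (x + (i + 1 : ℕ) * h)) (g (x + (i : ℕ) * h)) := by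
    intro x
    unfold dq
    rw [← ENNReal.ofReal_sum_of_nonneg (fun i _ => by positivity), ← ENNReal.ofReal_natCast,
      ← ENNReal.ofReal_mul (by positivity)]
    apply ENNReal.ofReal_le_ofReal
    have h1 : (g (x + n * h)).toReal - (g x).toReal = ∑ i ∈ Finset.range n,
        ((g (x + (i + 1 : ℕ) * h)).toReal - (g (x + (i : ℕ) * h)).toReal) := by
      rw [Finset.sum_range_sub (fun i : ℕ => (g (x + (i : ℕ) * h)).toReal)]
      simp
    rw [h1]
    have h2 := sq_sum_le_card_mul_sum_sq (s := Finset.range n)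
      (f := fun i : ℕ => (g (x + (i + 1 : ℕ) * h)).toReal - (g (x + (i : ℕ) * h)).toReal)
    rw [Finset.card_range] at h2
    exact h2
  have hm : ∀ i ∈ Finset.range n,
      Measurable fun x => dq (g (x + (i + 1 : ℕ) * h)) (g (x + (i : ℕ) * h)) := fun i _ =>
    measurable_dq (hg.comp (measurable_id.add_const _)) (hg.comp (measurable_id.add_const _))
  calc om g (n * h) ≤ ∫⁻ x, (n : ℝ≥0∞) *
      ∑ i ∈ Finset.range n, dq (g (x + (i + 1 : ℕ) * h)) (g (x + (i : ℕ) * h)) :=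
        lintegral_mono key
    _ = (n : ℝ≥0∞) * ∑ i ∈ Finset.range n, ∫⁻ x,
        dq (g (x + (i + 1 : ℕ) * h)) (g (x + (i : ℕ) * h)) := by
        rw [lintegral_const_mul _ (Finset.measurable_sum _ hm), lintegral_finsetSum _ hm]
    _ = (n : ℝ≥0∞) * ∑ i ∈ Finset.range n, om g h := by
        congr 1
        refine Finset.sum_congr rfl fun i _ => ?_
        rw [om_eq]
        congr 1
        push_cast
        ring
    _ = (n : ℝ≥0∞) ^ 2 * om g h := by
        rw [Finset.sum_const, Finset.card_range, nsmul_eq_mul, sq, mul_assoc]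

/-- integration against `U` -/
theorem lintegral_U (f : ℝ → ℝ≥0∞) :
    ∫⁻ s, f s ∂U = ENNReal.ofReal (1 / 2) * ∫⁻ s in Set.Icc (-1 : ℝ) 1, f s := by
  unfold U
  rw [lintegral_smul_measure, smul_eq_mul]

theorem two_mul_lintegral_U (f : ℝ → ℝ≥0∞) :
    2 * ∫⁻ s, f s ∂U = ∫⁻ s in Set.Icc (-1 : ℝ) 1, f s := by
  rw [lintegral_U, ← mul_assoc]
  have : (2 : ℝ≥0∞) * ENNReal.ofReal (1 / 2) = 1 := by
    have h2 : (2 : ℝ≥0∞) = ENNReal.ofReal 2 := by norm_num
    rw [h2, ← ENNReal.ofReal_mul (by norm_num)]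
    norm_num
  rw [this, one_mul]

/-- the loss -/
noncomputable def De (ε : ℝ) (g : ℝ → ℝ≥0∞) : ℝ≥0∞ :=
  ∫⁻ p : ℝ × ℝ, om g (ε * (p.1 - p.2)) ∂(U.prod U)

theorem om_le_De {g : ℝ → ℝ≥0∞} (hg : Measurable g) (ε u : ℝ) (hu0 : 0 ≤ u) (hu1 : u ≤ 1) :
    om g (ε * u) ≤ 8 * De ε g := by
  have hom := measurable_om hg
  have m1 : Measurable fun p : ℝ × ℝ => om g (ε * (p.1 - p.2)) :=
    hom.comp ((measurable_fst.sub measurable_snd).const_mul ε)
  have e1 : De ε g = ∫⁻ t, ∫⁻ s, om g (ε * (s - t)) ∂U ∂U := by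
    unfold De
    rw [lintegral_prod_symm _ m1.aemeasurable]
  have key : ∀ t : ℝ, om g (ε * u) ≤ 8 * ∫⁻ s, om g (ε * (s - t)) ∂U := by
    intro t
    have ms : Measurable fun s : ℝ => om g (ε * (s - t)) :=
      hom.comp ((measurable_id.sub_const t).const_mul ε)
    have ms2 : Measurable fun s : ℝ => om g (ε * ((s - u) - t)) :=
      hom.comp (((measurable_id.sub_const u).sub_const t).const_mul ε)
    have h1 : ∀ s : ℝ, om g (ε * u) ≤ 2 * om g (ε * (s - t)) + 2 * om g (ε * ((s - u) - t)) := by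
      intro s
      have := om_tri hg (ε * u) (ε * (s - t))
      have e : ε * (s - t) - ε * u = ε * ((s - u) - t) := by ring
      rwa [e] at this
    have h2 : om g (ε * u) = ∫⁻ s in Set.Icc (0 : ℝ) 1, om g (ε * u) := by
      rw [lintegral_const, Measure.restrict_apply MeasurableSet.univ, Set.univ_inter,
        Real.volume_Icc]
      simp
    have h3 : ∫⁻ s in Set.Icc (0 : ℝ) 1, om g (ε * (s - t)) ≤
        ∫⁻ s in Set.Icc (-1 : ℝ) 1, om g (ε * (s - t)) :=
      lintegral_mono_set (Set.Icc_subset_Icc (by norm_num) le_rfl)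
    have h4 : ∫⁻ s in Set.Icc (0 : ℝ) 1, om g (ε * ((s - u) - t)) ≤
        ∫⁻ s in Set.Icc (-1 : ℝ) 1, om g (ε * (s - t)) := by
      rw [← lintegral_indicator measurableSet_Icc, ← lintegral_indicator measurableSet_Icc,
        ← lintegral_add_right_eq_self (μ := volume)
          ((Set.Icc (0 : ℝ) 1).indicator fun s => om g (ε * ((s - u) - t))) u]
      apply lintegral_mono
      intro s
      by_cases hs : s + u ∈ Set.Icc (0 : ℝ) 1
      · have hs' : s ∈ Set.Icc (-1 : ℝ) 1 := ⟨by linarith [hs.1], by linarith [hs.2]⟩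
        simp only [Set.indicator_of_mem hs, Set.indicator_of_mem hs', add_sub_cancel_right]
        exact le_rfl
      · simp only [Set.indicator_of_notMem hs]
        exact bot_le
    calc om g (ε * u) = ∫⁻ s in Set.Icc (0 : ℝ) 1, om g (ε * u) := h2
      _ ≤ ∫⁻ s in Set.Icc (0 : ℝ) 1, (2 * om g (ε * (s - t)) + 2 * om g (ε * ((s - u) - t))) :=
          lintegral_mono h1
      _ = 2 * (∫⁻ s in Set.Icc (0 : ℝ) 1, om g (ε * (s - t))) +
          2 * ∫⁻ s in Set.Icc (0 : ℝ) 1, om g (ε * ((s - u) - t)) := by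
          rw [lintegral_add_left (ms.const_mul _), lintegral_const_mul _ ms,
            lintegral_const_mul _ ms2]
      _ ≤ 2 * (∫⁻ s in Set.Icc (-1 : ℝ) 1, om g (ε * (s - t))) +
          2 * ∫⁻ s in Set.Icc (-1 : ℝ) 1, om g (ε * (s - t)) := by gcongr
      _ = 8 * ∫⁻ s, om g (ε * (s - t)) ∂U := by
          rw [← two_mul_lintegral_U]; ring
  calc om g (ε * u) = ∫⁻ _ : ℝ, om g (ε * u) ∂U := by rw [lintegral_const]; simp
    _ ≤ ∫⁻ t, 8 * ∫⁻ s, om g (ε * (s - t)) ∂U ∂U := lintegral_mono key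
    _ = 8 * De ε g := by
        rw [lintegral_const_mul, e1]
        exact Measurable.lintegral_prod_right'
          (f := fun p : ℝ × ℝ => om g (ε * (p.2 - p.1)))
          (hom.comp ((measurable_snd.sub measurable_fst).const_mul ε))

theorem De_add {g : ℝ → ℝ≥0∞} (hg : Measurable g) (ε : ℝ) :
    De ε g + 2 * nsqL (avg ε g) ≤ 2 * nsqL g := by
  have ma : Measurable fun q : ℝ × ℝ => g (q.1 + ε * q.2) :=
    hg.comp (measurable_fst.add (measurable_snd.const_mul ε))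
  have mavg : Measurable (avg ε g) := by
    unfold avg
    exact Measurable.lintegral_prod_right' (f := fun q : ℝ × ℝ => g (q.1 + ε * q.2)) ma
  have mF : Measurable fun q : ℝ × (ℝ × ℝ) => dq (g (q.1 + ε * q.2.1)) (g (q.1 + ε * q.2.2)) :=
    measurable_dq
      (hg.comp (measurable_fst.add ((measurable_fst.comp measurable_snd).const_mul ε)))
      (hg.comp (measurable_fst.add ((measurable_snd.comp measurable_snd).const_mul ε)))
  have e1 : De ε g = ∫⁻ x, ∫⁻ p : ℝ × ℝ, dq (g (x + ε * p.1)) (g (x + ε * p.2)) ∂(U.prod U) := by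
    rw [lintegral_lintegral_swap mF.aemeasurable]
    unfold De
    congr 1
    funext p
    rw [om_eq]
    congr 1
    ring
  have e2 : nsqL g = ∫⁻ x, ∫⁻ s, g (x + ε * s) ^ 2 ∂U := by
    rw [lintegral_lintegral_swap (ma.pow_const 2).aemeasurable]
    have : ∀ s : ℝ, ∫⁻ x, g (x + ε * s) ^ 2 = nsqL g := fun s =>
      lintegral_add_right_eq_self (μ := volume) (fun x => g x ^ 2) (ε * s)
    simp only [this]
    rw [lintegral_const]
    simp
  have mG : Measurable fun x => ∫⁻ p : ℝ × ℝ,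
      dq (g (x + ε * p.1)) (g (x + ε * p.2)) ∂(U.prod U) :=
    Measurable.lintegral_prod_right' mF
  have mH : Measurable fun x => ∫⁻ s, g (x + ε * s) ^ 2 ∂U :=
    Measurable.lintegral_prod_right' (f := fun q : ℝ × ℝ => g (q.1 + ε * q.2) ^ 2)
      (ma.pow_const 2)
  rw [e1, e2]
  unfold nsqL
  rw [← lintegral_const_mul _ (mavg.pow_const 2), ← lintegral_add_left mG,
    ← lintegral_const_mul _ mH]
  apply lintegral_mono
  intro x
  have mx : Measurable fun s : ℝ => g (x + ε * s) :=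
    hg.comp ((measurable_id.const_mul ε).const_add x)
  have mp : Measurable fun p : ℝ × ℝ => dq (g (x + ε * p.1)) (g (x + ε * p.2)) :=
    measurable_dq (mx.comp measurable_fst) (mx.comp measurable_snd)
  have f1 : avg ε g x ^ 2 = ∫⁻ p : ℝ × ℝ, g (x + ε * p.1) * g (x + ε * p.2) ∂(U.prod U) := by
    rw [lintegral_prod_mul mx.aemeasurable mx.aemeasurable, sq]
    rfl
  have f2 : ∫⁻ p : ℝ × ℝ, g (x + ε * p.1) ^ 2 ∂(U.prod U) = ∫⁻ s, g (x + ε * s) ^ 2 ∂U := by
    exact (measurePreserving_fst (μ := U) (ν := U)).lintegral_comp (mx.pow_const 2)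
  have f3 : ∫⁻ p : ℝ × ℝ, g (x + ε * p.2) ^ 2 ∂(U.prod U) = ∫⁻ s, g (x + ε * s) ^ 2 ∂U := by
    exact (measurePreserving_snd (μ := U) (ν := U)).lintegral_comp (mx.pow_const 2)
  have m12 : Measurable fun p : ℝ × ℝ => g (x + ε * p.1) * g (x + ε * p.2) :=
    (mx.comp measurable_fst).mul (mx.comp measurable_snd)
  show (∫⁻ p : ℝ × ℝ, dq (g (x + ε * p.1)) (g (x + ε * p.2)) ∂(U.prod U)) +
    2 * avg ε g x ^ 2 ≤ 2 * ∫⁻ s, g (x + ε * s) ^ 2 ∂U
  rw [f1, ← lintegral_const_mul _ m12, ← lintegral_add_left mp, two_mul]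
  nth_rewrite 1 [← f2]
  have m1 : Measurable fun p : ℝ × ℝ => g (x + ε * p.1) ^ 2 := (mx.comp measurable_fst).pow_const 2
  rw [← f3, ← lintegral_add_left m1]
  exact lintegral_mono fun p => dq_add _ _

theorem sum_blocks (g : ℝ → ℝ≥0∞) (y : ℝ) (n : ℕ) :
    ∑ j ∈ Finset.range n, ∫⁻ x in Set.Ico y (y + 4), g (x + 4 * (j : ℝ)) ^ 2 =
      ∫⁻ x in Set.Ico y (y + 4 * n), g x ^ 2 := by
  induction n with
  | zero => simp
  | succ n ih =>
    rw [Finset.sum_range_succ, ih]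
    have h1 : ∫⁻ x in Set.Ico y (y + 4), g (x + 4 * (n : ℝ)) ^ 2 =
        ∫⁻ x in Set.Ico (y + 4 * n) (y + 4 * (n + 1 : ℕ)), g x ^ 2 := by
      rw [← lintegral_indicator measurableSet_Ico, ← lintegral_indicator measurableSet_Ico,
        ← lintegral_add_right_eq_self (μ := volume)
          ((Set.Ico (y + 4 * (n : ℝ)) (y + 4 * (n + 1 : ℕ))).indicator fun x => g x ^ 2)
          (4 * (n : ℝ))]
      congr 1
      funext x
      by_cases hx : x ∈ Set.Ico y (y + 4)
      · have hx' : x + 4 * (n : ℝ) ∈ Set.Ico (y + 4 * (n : ℝ)) (y + 4 * (n + 1 : ℕ)) := by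
          refine ⟨by linarith [hx.1], ?_⟩
          push_cast
          linarith [hx.2]
        rw [Set.indicator_of_mem hx, Set.indicator_of_mem hx']
      · have hx' : x + 4 * (n : ℝ) ∉ Set.Ico (y + 4 * (n : ℝ)) (y + 4 * (n + 1 : ℕ)) := by
          intro h
          refine hx ⟨by linarith [h.1], ?_⟩
          have := h.2
          push_cast at this
          linarith
        rw [Set.indicator_of_notMem hx, Set.indicator_of_notMem hx']
    have h2 : Set.Ico y (y + 4 * ((n + 1 : ℕ) : ℝ)) =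
        Set.Ico y (y + 4 * n) ∪ Set.Ico (y + 4 * n) (y + 4 * (n + 1 : ℕ)) := by
      rw [Set.Ico_union_Ico_eq_Ico (le_add_of_nonneg_right (by positivity)) (by push_cast; linarith)]
    rw [h1, h2, lintegral_union measurableSet_Ico]
    rw [Set.disjoint_left]
    intro x hx hx'
    exact absurd hx.2 (not_lt.2 hx'.1)

theorem om_long {g : ℝ → ℝ≥0∞} (hg : Measurable g) (ε : ℝ) (hε : 0 < ε) (hε1 : ε ≤ 1) (j : ℕ)
    (hj : j < 16) : om g (4 * (j : ℝ)) ≤ ENNReal.ofReal (30752 / ε ^ 2) * De ε g := by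
  obtain ⟨n, hn⟩ : ∃ n : ℕ, n = ⌈4 * (j : ℝ) / ε⌉₊ + 1 := ⟨_, rfl⟩
  have hj' : (j : ℝ) ≤ 15 := by exact_mod_cast Nat.le_of_lt_succ hj
  have hj0 : (0 : ℝ) ≤ 4 * (j : ℝ) / ε := by positivity
  have hn1 : 4 * (j : ℝ) / ε ≤ n := by
    rw [hn]; push_cast
    linarith [Nat.le_ceil (4 * (j : ℝ) / ε)]
  have hn2 : (n : ℝ) ≤ 62 / ε := by
    rw [hn]; push_cast
    have h1 := (Nat.ceil_lt_add_one hj0).le
    have h2 : 4 * (j : ℝ) / ε ≤ 60 / ε := by
      apply div_le_div_of_nonneg_right _ hε.le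
      linarith
    have h3 : 2 ≤ 2 / ε := by
      rw [le_div_iff₀ hε]; linarith
    have h4 : 62 / ε = 60 / ε + 2 / ε := by ring
    linarith
  have hn0 : (0 : ℝ) < n := by
    rw [hn]; positivity
  have hu0 : 0 ≤ 4 * (j : ℝ) / ε / n := by positivity
  have hu1 : 4 * (j : ℝ) / ε / n ≤ 1 := by
    rw [div_le_one hn0]; exact hn1
  have h1 := om_nsteps hg (ε * (4 * (j : ℝ) / ε / n)) n
  have e1 : (n : ℝ) * (ε * (4 * (j : ℝ) / ε / n)) = 4 * (j : ℝ) := by
    field_simp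
  rw [e1] at h1
  have h2 := om_le_De hg ε _ hu0 hu1
  have h3 : ((n : ℝ≥0∞)) ^ 2 ≤ ENNReal.ofReal (3844 / ε ^ 2) := by
    rw [← ENNReal.ofReal_natCast, ← ENNReal.ofReal_pow (Nat.cast_nonneg n)]
    apply ENNReal.ofReal_le_ofReal
    have h4 : (n : ℝ) ^ 2 ≤ (62 / ε) ^ 2 := by gcongr
    have h5 : (62 / ε) ^ 2 = 3844 / ε ^ 2 := by ring
    rw [h5] at h4
    exact h4
  calc om g (4 * (j : ℝ)) ≤ (n : ℝ≥0∞) ^ 2 * om g (ε * (4 * (j : ℝ) / ε / n)) := h1
    _ ≤ ENNReal.ofReal (3844 / ε ^ 2) * (8 * De ε g) := by gcongr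
    _ = ENNReal.ofReal (30752 / ε ^ 2) * De ε g := by
      rw [← mul_assoc]
      congr 1
      have h8 : (8 : ℝ≥0∞) = ENNReal.ofReal 8 := by norm_num
      rw [h8, ← ENNReal.ofReal_mul (by positivity)]
      congr 1
      ring

theorem block_le {g : ℝ → ℝ≥0∞} (hg : Measurable g) (hfin : ∀ᵐ x, g x ≠ ∞) (y : ℝ) (j : ℕ) :
    ∫⁻ x in Set.Icc y (y + 4), g x ^ 2 ≤
      2 * (∫⁻ x in Set.Ico y (y + 4), g (x + 4 * (j : ℝ)) ^ 2) + 2 * om g (4 * (j : ℝ)) := by
  have m1 : Measurable fun x : ℝ => g (x + 4 * (j : ℝ)) ^ 2 :=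
    (hg.comp (measurable_id.add_const _)).pow_const 2
  have m2 : Measurable fun x => dq (g (x + 4 * (j : ℝ))) (g x) :=
    measurable_dq (hg.comp (measurable_id.add_const _)) hg
  calc ∫⁻ x in Set.Icc y (y + 4), g x ^ 2 = ∫⁻ x in Set.Ico y (y + 4), g x ^ 2 :=
        setLIntegral_congr Ico_ae_eq_Icc.symm
    _ ≤ ∫⁻ x in Set.Ico y (y + 4),
        (2 * g (x + 4 * (j : ℝ)) ^ 2 + 2 * dq (g (x + 4 * (j : ℝ))) (g x)) := by
        apply lintegral_mono_ae
        filter_upwards [ae_restrict_of_ae hfin] with x hx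
        rw [dq_comm]
        exact sq_le_dq _ _ hx
    _ = 2 * (∫⁻ x in Set.Ico y (y + 4), g (x + 4 * (j : ℝ)) ^ 2) +
        2 * ∫⁻ x in Set.Ico y (y + 4), dq (g (x + 4 * (j : ℝ))) (g x) := by
        rw [lintegral_add_left (m1.const_mul _), lintegral_const_mul _ m1,
          lintegral_const_mul _ m2]
    _ ≤ _ := by
        gcongr
        exact setLIntegral_le_lintegral _ _

theorem taskDich : TaskDich := by
  refine ⟨123008, by norm_num, ?_⟩
  intro ε g y hε hε1 hg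
  by_cases hN : nsqL g = ∞
  · rw [hN]
    have : ENNReal.ofReal (1 / 8) * ∞ = ∞ := ENNReal.mul_top (by norm_num)
    rw [this, top_add]
    exact le_top
  have hfin : ∀ᵐ x, g x ≠ ∞ := by
    filter_upwards [ae_lt_top (hg.pow_const 2) hN] with x hx h
    rw [h] at hx
    simp at hx
  have hb : ∀ j ∈ Finset.range 16, (∫⁻ x in Set.Icc y (y + 4), g x ^ 2) ≤
      2 * (∫⁻ x in Set.Ico y (y + 4), g (x + 4 * (j : ℝ)) ^ 2) +
        ENNReal.ofReal (61504 / ε ^ 2) * De ε g := by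
    intro j hj
    refine (block_le hg hfin y j).trans (add_le_add_right ?_ _)
    calc 2 * om g (4 * (j : ℝ)) ≤ 2 * (ENNReal.ofReal (30752 / ε ^ 2) * De ε g) := by
          gcongr
          exact om_long hg ε hε hε1 j (Finset.mem_range.1 hj)
      _ = ENNReal.ofReal (61504 / ε ^ 2) * De ε g := by
          rw [← mul_assoc]
          congr 1
          have h2 : (2 : ℝ≥0∞) = ENNReal.ofReal 2 := by norm_num
          rw [h2, ← ENNReal.ofReal_mul (by positivity)]
          congr 1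
          ring
  have hs := Finset.sum_le_sum hb
  rw [Finset.sum_add_distrib, ← Finset.mul_sum, sum_blocks, Finset.sum_const, Finset.sum_const,
    Finset.card_range] at hs
  have hs2 : 16 * (∫⁻ x in Set.Icc y (y + 4), g x ^ 2) ≤
      2 * nsqL g + 16 * (ENNReal.ofReal (61504 / ε ^ 2) * De ε g) := by
    have h1 : ∫⁻ x in Set.Ico y (y + 4 * ((16 : ℕ) : ℝ)), g x ^ 2 ≤ nsqL g :=
      setLIntegral_le_lintegral _ _
    simp only [nsmul_eq_mul] at hs
    push_cast at hs h1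
    exact hs.trans (by gcongr)
  have hc16 : ENNReal.ofReal (1 / 16) * 16 = 1 := by
    have h16 : (16 : ℝ≥0∞) = ENNReal.ofReal 16 := by norm_num
    rw [h16, ← ENNReal.ofReal_mul (by norm_num)]
    norm_num
  have hc8 : ENNReal.ofReal (1 / 16) * 2 = ENNReal.ofReal (1 / 8) := by
    have h2 : (2 : ℝ≥0∞) = ENNReal.ofReal 2 := by norm_num
    rw [h2, ← ENNReal.ofReal_mul (by norm_num)]
    norm_num
  have hs3 : (∫⁻ x in Set.Icc y (y + 4), g x ^ 2) ≤
      ENNReal.ofReal (1 / 8) * nsqL g + ENNReal.ofReal (61504 / ε ^ 2) * De ε g := by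
    calc (∫⁻ x in Set.Icc y (y + 4), g x ^ 2)
        = ENNReal.ofReal (1 / 16) * (16 * ∫⁻ x in Set.Icc y (y + 4), g x ^ 2) := by
          rw [← mul_assoc, hc16, one_mul]
      _ ≤ ENNReal.ofReal (1 / 16) *
          (2 * nsqL g + 16 * (ENNReal.ofReal (61504 / ε ^ 2) * De ε g)) := by gcongr
      _ = _ := by
          rw [mul_add, ← mul_assoc, hc8, ← mul_assoc (ENNReal.ofReal (1 / 16)) 16, hc16, one_mul]
  have hC : ENNReal.ofReal (123008 / ε ^ 2) = ENNReal.ofReal (61504 / ε ^ 2) * 2 := by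
    have h2 : (2 : ℝ≥0∞) = ENNReal.ofReal 2 := by norm_num
    rw [h2, ← ENNReal.ofReal_mul (by positivity)]
    congr 1
    ring
  calc (∫⁻ x in Set.Icc y (y + 4), g x ^ 2) + ENNReal.ofReal (123008 / ε ^ 2) * nsqL (avg ε g)
      ≤ (ENNReal.ofReal (1 / 8) * nsqL g + ENNReal.ofReal (61504 / ε ^ 2) * De ε g) +
        ENNReal.ofReal (123008 / ε ^ 2) * nsqL (avg ε g) := by gcongr
    _ = ENNReal.ofReal (1 / 8) * nsqL g +
        ENNReal.ofReal (61504 / ε ^ 2) * (De ε g + 2 * nsqL (avg ε g)) := by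
        rw [hC]; ring
    _ ≤ ENNReal.ofReal (1 / 8) * nsqL g +
        ENNReal.ofReal (61504 / ε ^ 2) * (2 * nsqL g) := by
        gcongr
        exact De_add hg ε
    _ = _ := by rw [hC]; ring

end Pool.Agent.H191R3.PP
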